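import Pool.Agent.H.MP_f85f12_al.Defs

set_option autoImplicit false
set_option backward.isDefEq.respectTransparency false

namespace Pool.Agent.H.MP_f85f12_al

open CategoryTheory Limits Pretriangulated DerivedCategory DerivedCategory.TStructure

universe w v u

variable {A : Type u} [Category.{v} A] [Abelian A]

structure TP (T F : A → Prop) : Prop where
  isoT : ∀ {M N : A}, (M ≅ N) → T M → T N
  isoF : ∀ {M N : A}, (M ≅ N) → F M → F N
  hom : ∀ {M N : A}, T M → F N → ∀ f : M ⟶ N, f = 0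
  ses : ∀ M : A, ∃ (a c : A) (i : a ⟶ M) (p : M ⟶ c) (w : i ≫ p = 0),
    (ShortComplex.mk i p w).ShortExact ∧ T a ∧ F c

variable {T F : A → Prop}

lemma TP.sumF (h : TP T F) {M N : A} (hM : F M) (hN : F N) : F (M ⊞ N) := by
  obtain ⟨a, c, i, p, w, hS, ha, hc⟩ := h.ses (M ⊞ N)
  have hi : i = 0 := by
    ext
    · rw [zero_comp]; exact h.hom ha hM _
    · rw [zero_comp]; exact h.hom ha hN _
  have := hS.epi_g
  have : Mono p := hS.exact.mono_g hi
  have : IsIso p := isIso_of_mono_of_epi p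
  exact h.isoF (asIso p).symm hc

lemma TP.sumT (h : TP T F) {M N : A} (hM : T M) (hN : T N) : T (M ⊞ N) := by
  obtain ⟨a, c, i, p, w, hS, ha, hc⟩ := h.ses (M ⊞ N)
  have hp : p = 0 := by
    ext
    · rw [comp_zero]; exact h.hom hM hc _
    · rw [comp_zero]; exact h.hom hN hc _
  have := hS.mono_f
  have : Epi i := hS.exact.epi_f hp
  have : IsIso i := isIso_of_mono_of_epi i
  exact h.isoT (asIso i) ha

variable [HasDerivedCategory.{w} A]

attribute [local instance] preservesBinaryBiproducts_of_preservesBiproducts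

/-- The slicing attached to a torsion pair. -/
def PP (T F : A → Prop) (φ : ℝ) : ObjectProperty (Bounded A) := fun X =>
  IsZero X.obj ∨ ∃ (n : ℤ) (M : A), Nonempty (X.obj ≅ (singleFunctor A n).obj M) ∧
    ((φ + n = 1 / 2 ∧ F M) ∨ (φ + n = 1 ∧ T M))

lemma isZero_iff (X : Bounded A) : IsZero X ↔ IsZero X.obj :=
  ⟨fun h => Bounded.ι.map_isZero h, fun h => IsZero.of_full_of_faithful_of_isZero Bounded.ι X h⟩

lemma bd_single (n : ℤ) (M : A) : t.bounded ((singleFunctor A n).obj M) :=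
  ⟨⟨n, inferInstance⟩, ⟨n, inferInstance⟩⟩

lemma lift_tri {X Y Z : Bounded A} (f : X.obj ⟶ Y.obj) (g : Y.obj ⟶ Z.obj)
    (h : Z.obj ⟶ X.obj⟦(1 : ℤ)⟧) (hT : Triangle.mk f g h ∈ distTriang _) :
    ∃ δ, Triangle.mk (ObjectProperty.homMk f : X ⟶ Y) (ObjectProperty.homMk g : Y ⟶ Z) δ ∈
      distTriang (Bounded A) :=
  ⟨ObjectProperty.homMk (h ≫ (Bounded.ι.commShiftIso (1 : ℤ)).inv.app X),
    isomorphic_distinguished _ hT _
      (Triangle.isoMk _ _ (Iso.refl _) (Iso.refl _) (Iso.refl _) (by simp; rfl) (by simp; rfl)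
        (by
          change ((h ≫ (Bounded.ι.commShiftIso (1 : ℤ)).inv.app X) ≫
            (Bounded.ι.commShiftIso (1 : ℤ)).hom.app X) ≫ (𝟙 X.obj)⟦(1 : ℤ)⟧' = 𝟙 _ ≫ h
          simp))⟩

noncomputable def shIso (a n m : ℤ) (h : a + m = n) (M : A) :
    ((singleFunctor A n).obj M)⟦a⟧ ≅ (singleFunctor A m).obj M :=
  ((singleFunctors A).shiftIso a m n h).app M

lemma PP_iso {φ : ℝ} {X Y : Bounded A} (e : X.obj ≅ Y.obj) (h : PP T F φ X) : PP T F φ Y := by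
  rcases h with h | ⟨n, M, ⟨e'⟩, h⟩
  · exact Or.inl (h.of_iso e.symm)
  · exact Or.inr ⟨n, M, ⟨e.symm ≪≫ e'⟩, h⟩

lemma int_half (n m : ℤ) (h : (n : ℝ) - m = 1 / 2) : False := by
  have : ((2 * (n - m) : ℤ) : ℝ) = (1 : ℤ) := by push_cast; linarith
  have := Int.cast_injective this
  omega

lemma PP_sum (h : TP T F) {φ : ℝ} {X Y : Bounded A} (hX : PP T F φ X) (hY : PP T F φ Y) :
    PP T F φ (X ⊞ Y) := by
  have e : (X ⊞ Y).obj ≅ X.obj ⊞ Y.obj := Bounded.ι.mapBiprod X Y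
  rcases hX with hX | ⟨n, M, ⟨eX⟩, hM⟩
  · exact PP_iso ((isoZeroBiprod hX) ≪≫ e.symm) hY
  rcases hY with hY | ⟨m, N, ⟨eY⟩, hN⟩
  · exact PP_iso ((isoBiprodZero hY) ≪≫ e.symm) (Or.inr ⟨n, M, ⟨eX⟩, hM⟩)
  have key : ∀ (_ : (n : ℝ) = m), Nonempty ((X ⊞ Y).obj ≅ (singleFunctor A n).obj (M ⊞ N)) := by
    intro hnm
    obtain rfl : n = m := Int.cast_injective hnm
    exact ⟨e ≪≫ biprod.mapIso eX eY ≪≫ ((singleFunctor A n).mapBiprod M N).symm⟩
  rcases hM with ⟨h1, hM⟩ | ⟨h1, hM⟩ <;> rcases hN with ⟨h2, hN⟩ | ⟨h2, hN⟩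
  · exact Or.inr ⟨n, _, key (by linarith), Or.inl ⟨h1, h.sumF hM hN⟩⟩
  · exact (int_half m n (by linarith)).elim
  · exact (int_half n m (by linarith)).elim
  · exact Or.inr ⟨n, _, key (by linarith), Or.inr ⟨h1, h.sumT hM hN⟩⟩

lemma PP_shift (φ : ℝ) (X : Bounded A) : PP T F φ X ↔ PP T F (φ + 1) (X⟦(1 : ℤ)⟧) := by
  have e : (X⟦(1 : ℤ)⟧).obj ≅ X.obj⟦(1 : ℤ)⟧ := (Bounded.ι.commShiftIso (1 : ℤ)).app X
  constructor
  · rintro (h | ⟨n, M, ⟨e'⟩, h⟩)
    · exact Or.inl (((shiftFunctor _ (1 : ℤ)).map_isZero h).of_iso e)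
    · refine Or.inr ⟨n - 1, M, ⟨e ≪≫ (shiftFunctor _ (1 : ℤ)).mapIso e' ≪≫
        shIso 1 n (n - 1) (by ring) M⟩, ?_⟩
      have : φ + 1 + ((n - 1 : ℤ) : ℝ) = φ + n := by push_cast; ring
      rwa [this]
  · rintro (h | ⟨n, M, ⟨e'⟩, h⟩)
    · exact Or.inl (IsZero.of_full_of_faithful_of_isZero (shiftFunctor _ (1 : ℤ)) _
        (h.of_iso e.symm))
    · refine Or.inr ⟨n + 1, M, ⟨(shiftFunctor _ (1 : ℤ)).preimageIso (e.symm ≪≫ e' ≪≫
        (shIso 1 (n + 1) n (by ring) M).symm)⟩, ?_⟩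
      have : φ + ((n + 1 : ℤ) : ℝ) = φ + 1 + n := by push_cast; ring
      rwa [this]

lemma PP_hom (h : TP T F) {φ ψ : ℝ} {X Y : Bounded A} (hlt : ψ < φ) (hX : PP T F φ X)
    (hY : PP T F ψ Y) (f : X ⟶ Y) : f = 0 := by
  rcases hX with hX | ⟨n, M, ⟨eX⟩, hM⟩
  · exact ((isZero_iff X).2 hX).eq_of_src _ _
  rcases hY with hY | ⟨m, N, ⟨eY⟩, hN⟩
  · exact ((isZero_iff Y).2 hY).eq_of_tgt _ _
  suffices hs : eX.inv ≫ f.hom ≫ eY.hom = 0 by
    apply Bounded.ι.map_injective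
    rw [Functor.map_zero]
    have : f.hom = eX.hom ≫ (eX.inv ≫ f.hom ≫ eY.hom) ≫ eY.inv := by simp
    change f.hom = 0
    rw [this, hs, zero_comp, comp_zero]
  generalize eX.inv ≫ f.hom ≫ eY.hom = g
  have lt : ∀ (_ : (n : ℝ) < m), g = 0 := fun hh => t.zero g n m (by exact_mod_cast hh)
  rcases hM with ⟨h1, hM⟩ | ⟨h1, hM⟩ <;> rcases hN with ⟨h2, hN⟩ | ⟨h2, hN⟩
  · exact lt (by linarith)
  · exact lt (by linarith)
  · rcases lt_trichotomy n m with hh | rfl | hh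
    · exact lt (by exact_mod_cast hh)
    · obtain ⟨g', rfl⟩ := (singleFunctor A n).map_surjective g
      rw [h.hom hM hN g', Functor.map_zero]
    · have : (m : ℝ) + 1 ≤ n := by exact_mod_cast hh
      linarith
  · exact lt (by linarith)

lemma single_ext (h : TP T F) (b : ℤ) (X : Bounded A) (M : A)
    (e : X.obj ≅ (singleFunctor A b).obj M) :
    (PP T F (1 - b)).extensionProduct (PP T F (1 / 2 - b)) X := by
  obtain ⟨a, c, i, p, w, hS, ha, hc⟩ := h.ses M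
  have hT := Triangle.shift_distinguished _ hS.singleTriangle_distinguished (-b)
  let e1 := shIso (-b) 0 b (by ring) a
  let e2 := shIso (-b) 0 b (by ring) M ≪≫ e.symm
  let e3 := shIso (-b) 0 b (by ring) c
  let S := (Triangle.shiftFunctor _ (-b)).obj hS.singleTriangle
  have hT' : Triangle.mk (e1.inv ≫ S.mor₁ ≫ e2.hom) (e2.inv ≫ S.mor₂ ≫ e3.hom)
      (e3.inv ≫ S.mor₃ ≫ e1.hom⟦(1 : ℤ)⟧') ∈ distTriang _ :=
    isomorphic_distinguished _ hT _ (Triangle.isoMk _ _ e1.symm e2.symm e3.symm (by simp; rfl)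
      (by simp; rfl) (by simp [← Functor.map_comp]; rfl))
  obtain ⟨δ, hδ⟩ := lift_tri (X := ⟨_, bd_single b a⟩) (Y := X) (Z := ⟨_, bd_single b c⟩) _ _ _ hT'
  exact ⟨_, _, _, _, _, hδ, Or.inr ⟨b, a, ⟨Iso.refl _⟩, Or.inr ⟨by ring, ha⟩⟩,
    Or.inr ⟨b, c, ⟨Iso.refl _⟩, Or.inl ⟨by ring, hc⟩⟩⟩

lemma hn_aux (h : TP T F) (a : ℤ) (k : ℕ) : ∀ X : Bounded A, X.obj.IsGE a →
    X.obj.IsLE (a - 1 + k) → HN (PP T F) (-((a - 1 + k : ℤ) : ℝ)) X := by
  induction k with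
  | zero =>
    intro X h1 h2
    exact HN.zero _ _ ((isZero_iff X).2 (t.isZero X.obj (a - 1 + (0 : ℕ)) a (by simp)))
  | succ k ih =>
    intro X h1 h2
    set b : ℤ := a - 1 + (k + 1 : ℕ) with hb
    have hb' : a - 1 + k = b - 1 := by rw [hb]; push_cast; ring
    have hab : a ≤ b := by omega
    have i1 : ((t.truncLT b).obj X.obj).IsGE a := inferInstance
    have i2 : ((t.truncLT b).obj X.obj).IsLE (a - 1 + k) := by rw [hb']; infer_instance
    have i3 : ((t.truncGE b).obj X.obj).IsGE b := inferInstance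
    have i4 : ((t.truncGE b).obj X.obj).IsLE b := inferInstance
    obtain ⟨δ, hδ⟩ := lift_tri (X := ⟨_, ⟨_, i1⟩, ⟨_, i2⟩⟩) (Y := X) (Z := ⟨_, ⟨_, i3⟩, ⟨_, i4⟩⟩)
      _ _ _ (t.triangleLTGE_distinguished b X.obj)
    obtain ⟨M, ⟨e⟩⟩ := exists_iso_singleFunctor_obj_of_isGE_of_isLE ((t.truncGE b).obj X.obj) b
    have hX : ObjectProperty.extensionProduct (HN (PP T F) (1 - b))
        ((PP T F (1 - b)).extensionProduct (PP T F (1 / 2 - b))) X := by
      refine ⟨_, _, _, _, _, hδ, ?_, single_ext h b _ M e⟩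
      have := ih ⟨_, ⟨_, i1⟩, ⟨_, i2⟩⟩ i1 i2
      rwa [show -((a - 1 + k : ℤ) : ℝ) = 1 - b by rw [hb']; push_cast; ring] at this
    rw [← ObjectProperty.extensionProduct_assoc] at hX
    obtain ⟨Y, Z, f, g, d, hT, ⟨Y', Z', f', g', d', hT', hY', hZ'⟩, hZ⟩ := hX
    exact HN.step _ (1 / 2 - b) _ hT (by linarith) hZ
      (HN.step _ (1 - b) _ hT' (by linarith) hZ' hY')

lemma slicing (h : TP T F) : IsSlicing (PP T F) where
  iso _ _ _ := fun ⟨e⟩ => PP_iso (Bounded.ι.mapIso e)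
  zero _ X hX := Or.inl ((isZero_iff X).1 hX)
  sum _ _ _ := PP_sum h
  shift := PP_shift
  hom _ _ _ _ := PP_hom h
  hn X := by
    obtain ⟨⟨a, ha⟩, ⟨b, hb⟩⟩ := X.property
    exact ⟨_, hn_aux h a (b - a + 1).toNat X ha (t.isLE_of_le _ b _ (by omega))⟩

/-- Exact triangles inside a slice are strict short exact sequences. -/
lemma strict_of_tri {C : Type u} [Category.{v} C] [Preadditive C] [HasZeroObject C]
    [HasShift C ℤ] [∀ n : ℤ, (shiftFunctor C n).Additive] [Pretriangulated C]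
    {P : ℝ → ObjectProperty C} (hP : IsSlicing P) {φ : ℝ}
    {a b c : (P φ).FullSubcategory} (i : a ⟶ b) (p : b ⟶ c) (δ : c.obj ⟶ a.obj⟦(1 : ℤ)⟧)
    (hT : Triangle.mk i.hom p.hom δ ∈ distTriang C) : Strict i p := by
  have w : i ≫ p = 0 := by
    apply (P φ).ι.map_injective
    rw [Functor.map_zero]
    exact comp_distTriang_mor_zero₁₂ _ hT
  have hm : ∀ {x : (P φ).FullSubcategory} (f : x ⟶ a), f ≫ i = 0 → f = 0 := by
    intro x f hf
    have hf' : f.hom ≫ i.hom = 0 := congrArg (·.hom) hf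
    have : f.hom⟦(1 : ℤ)⟧' ≫ (Triangle.mk i.hom p.hom δ).rotate.rotate.mor₂ = 0 := by
      change f.hom⟦(1 : ℤ)⟧' ≫ (-i.hom⟦(1 : ℤ)⟧') = 0
      rw [Preadditive.comp_neg, ← Functor.map_comp, hf', Functor.map_zero, neg_zero]
    obtain ⟨g, hg⟩ := Triangle.coyoneda_exact₂ _
      (rot_of_distTriang _ (rot_of_distTriang _ hT)) _ this
    have hg0 : g = 0 := hP.hom (φ + 1) φ _ _ (by linarith) ((hP.shift φ _).1 x.property)
      c.property g
    rw [hg0, zero_comp] at hg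
    apply (P φ).ι.map_injective
    rw [Functor.map_zero]
    exact (shiftFunctor C (1 : ℤ)).map_injective (by rw [Functor.map_zero]; exact hg)
  have he : ∀ {x : (P φ).FullSubcategory} (f : c ⟶ x), p ≫ f = 0 → f = 0 := by
    intro x f hf
    have hf' : p.hom ≫ f.hom = 0 := congrArg (·.hom) hf
    obtain ⟨g, hg⟩ := Triangle.yoneda_exact₃ _ hT f.hom hf'
    have hg0 : g = 0 := hP.hom (φ + 1) φ _ _ (by linarith) ((hP.shift φ _).1 a.property)
      x.property g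
    rw [hg0, comp_zero] at hg
    apply (P φ).ι.map_injective
    rw [Functor.map_zero]
    exact hg
  have : Mono i := Preadditive.mono_of_cancel_zero _ hm
  have : Epi p := Preadditive.epi_of_cancel_zero _ he
  refine ⟨w, ⟨KernelFork.IsLimit.ofι' _ _ fun {x} f hf => ?_⟩,
    ⟨CokernelCofork.IsColimit.ofπ' _ _ fun {x} f hf => ?_⟩⟩
  · have := Triangle.coyoneda_exact₂ _ hT f.hom (congrArg (·.hom) hf)
    exact ⟨ObjectProperty.homMk this.choose, (P φ).ι.map_injective this.choose_spec.symm⟩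
  · have := Triangle.yoneda_exact₂ _ hT f.hom (congrArg (·.hom) hf)
    exact ⟨ObjectProperty.homMk this.choose, (P φ).ι.map_injective this.choose_spec.symm⟩

end Pool.Agent.H.MP_f85f12_al
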