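import Pool.Agent.H.MP_f85f12_al.A

set_option autoImplicit false
set_option backward.isDefEq.respectTransparency false

namespace Pool.Agent.H.MP_f85f12_al

open CategoryTheory Limits Pretriangulated DerivedCategory DerivedCategory.TStructure Module

universe w v u

variable {A : Type u} [Category.{v} A] [Abelian A] {k : Type} [Field k]
  (Φ : A ⥤ ModuleCat.{0} k)

noncomputable def dm (M : A) : ℤ := finrank k (Φ.obj M)

noncomputable def rk {M N : A} (f : M ⟶ N) : ℤ := finrank k (LinearMap.range (Φ.map f).hom)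

lemma dm_iso {M N : A} (e : M ≅ N) : dm Φ M = dm Φ N := by
  unfold dm
  rw [(Φ.mapIso e).toLinearEquiv.finrank_eq]

lemma dm_nonneg (M : A) : 0 ≤ dm Φ M := Int.natCast_nonneg _

lemma dm_zero' {M : A} (h : IsZero (Φ.obj M)) : dm Φ M = 0 := by
  have : Subsingleton (Φ.obj M) := ModuleCat.isZero_iff_subsingleton.1 h
  unfold dm
  rw [finrank_zero_of_subsingleton]; rfl

variable [Φ.Additive]

lemma dm_zero {M : A} (h : IsZero M) : dm Φ M = 0 := dm_zero' Φ (Φ.map_isZero h)

lemma rk_zero {M N : A} (f : M ⟶ N) (h : f = 0) : rk Φ f = 0 := by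
  unfold rk
  rw [h, Functor.map_zero, ModuleCat.hom_zero, LinearMap.range_zero, finrank_bot]; rfl

variable [Φ.PreservesHomology] [∀ M, Module.Finite k (Φ.obj M)]

lemma dm_exact {S : ShortComplex A} (h : S.Exact) : dm Φ S.X₂ = rk Φ S.f + rk Φ S.g := by
  have h1 := (h.map Φ).moduleCat_range_eq_ker
  have h2 := LinearMap.finrank_range_add_finrank_ker (Φ.map S.g).hom
  unfold dm rk
  have h3 : LinearMap.range (Φ.map S.f).hom = LinearMap.ker (Φ.map S.g).hom := h1
  rw [h3, ← h2]
  push_cast; ring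

variable [HasDerivedCategory.{w} A]

noncomputable def chi (X : DerivedCategory A) : ℤ :=
  ∑ᶠ i : ℤ, (i.negOnePow : ℤ) * dm Φ ((homologyFunctor A i).obj X)

omit [Φ.Additive] [Φ.PreservesHomology] [∀ M, Module.Finite k (Φ.obj M)] in
lemma chi_iso {X Y : DerivedCategory A} (e : X ≅ Y) : chi Φ X = chi Φ Y :=
  finsum_congr fun i => by rw [dm_iso Φ ((homologyFunctor A i).mapIso e)]

omit [Φ.PreservesHomology] [∀ M, Module.Finite k (Φ.obj M)] in
lemma chi_single (n : ℤ) (M : A) :
    chi Φ ((singleFunctor A n).obj M) = (n.negOnePow : ℤ) * dm Φ M := by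
  unfold chi
  rw [finsum_eq_single _ n]
  · exact congrArg _ (dm_iso Φ ((singleFunctorCompHomologyFunctorIso A n).app M))
  · intro i hi
    rcases lt_or_gt_of_ne hi with h | h
    · rw [dm_zero Φ (isZero_of_isGE _ n i h), mul_zero]
    · rw [dm_zero Φ (isZero_of_isLE _ n i h), mul_zero]

lemma fin_zero {X : DerivedCategory A} (h : t.bounded X) :
    {i : ℤ | ¬ IsZero ((homologyFunctor A i).obj X)}.Finite := by
  obtain ⟨⟨a, ha⟩, ⟨b, hb⟩⟩ := h
  refine (Set.finite_Icc a b).subset fun i hi => ⟨?_, ?_⟩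
  · by_contra hh
    exact hi (isZero_of_isGE X a i (by omega))
  · by_contra hh
    exact hi (isZero_of_isLE X b i (by omega))

lemma chi_add (S : Triangle (DerivedCategory A)) (hS : S ∈ distTriang _)
    (h2 : t.bounded S.obj₂) (h3 : t.bounded S.obj₃) :
    chi Φ S.obj₂ = chi Φ S.obj₁ + chi Φ S.obj₃ := by
  let a : ℤ → ℤ := fun i => (i.negOnePow : ℤ) * rk Φ ((homologyFunctor A i).map S.mor₁)
  let b : ℤ → ℤ := fun i => (i.negOnePow : ℤ) * rk Φ ((homologyFunctor A i).map S.mor₂)
  let c : ℤ → ℤ := fun i => (i.negOnePow : ℤ) * rk Φ (HomologySequence.δ S i (i + 1) rfl)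
  have fa : Function.HasFiniteSupport a := (fin_zero h2).subset fun i hi hz =>
    hi (by simp only [a]; rw [rk_zero Φ _ (hz.eq_of_tgt _ _), mul_zero])
  have fb : Function.HasFiniteSupport b := (fin_zero h2).subset fun i hi hz =>
    hi (by simp only [b]; rw [rk_zero Φ _ (hz.eq_of_src _ _), mul_zero])
  have fc : Function.HasFiniteSupport c := (fin_zero h3).subset fun i hi hz =>
    hi (by simp only [c]; rw [rk_zero Φ _ (hz.eq_of_src _ _), mul_zero])
  have e2 : chi Φ S.obj₂ = ∑ᶠ i, a i + ∑ᶠ i, b i := by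
    rw [← finsum_add_distrib fa fb]
    exact finsum_congr fun i => by
      rw [show dm Φ ((homologyFunctor A i).obj S.obj₂) = _ from
        dm_exact Φ (HomologySequence.exact₂ S hS i)]
      simp only [a, b]; ring
  have e3 : chi Φ S.obj₃ = ∑ᶠ i, b i + ∑ᶠ i, c i := by
    rw [← finsum_add_distrib fb fc]
    exact finsum_congr fun i => by
      rw [show dm Φ ((homologyFunctor A i).obj S.obj₃) = _ from
        dm_exact Φ (HomologySequence.exact₃ S hS i (i + 1) rfl)]
      simp only [b, c]; ring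
  have fa' : Function.HasFiniteSupport fun i => a (i + 1) :=
    (fa.preimage (f := fun i => i + 1) (add_left_injective 1).injOn).subset fun i hi => hi
  have e1 : chi Φ S.obj₁ = ∑ᶠ i, a i - ∑ᶠ i, c i := by
    rw [← finsum_comp_equiv (Equiv.addRight (1 : ℤ)) (f := a)]
    unfold chi
    rw [← finsum_comp_equiv (Equiv.addRight (1 : ℤ))]
    simp only [Equiv.coe_addRight]
    rw [← finsum_sub_distrib fa' fc]
    exact finsum_congr fun i => by
      rw [show dm Φ ((homologyFunctor A (i + 1)).obj S.obj₁) = _ from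
        dm_exact Φ (HomologySequence.exact₁ S hS i (i + 1) rfl)]
      simp only [a, c, Int.negOnePow_succ, Units.val_neg]; ring
  rw [e1, e2, e3]; ring

/-- The Euler characteristic on the Grothendieck group. -/
noncomputable def chiK : K0 (Bounded A) →+ ℤ :=
  QuotientAddGroup.lift _ (FreeAbelianGroup.lift fun X : Bounded A => chi Φ X.obj) (by
    refine (AddSubgroup.closure_le _).2 ?_
    rintro _ ⟨S, hS, rfl⟩
    have := chi_add Φ _ hS S.obj₂.property S.obj₃.property
    simp only [SetLike.mem_coe, AddMonoidHom.mem_ker, map_sub, FreeAbelianGroup.lift_apply_of]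
    exact sub_eq_zero.2 (sub_eq_iff_eq_add'.2 this))

lemma chiK_cl (X : Bounded A) : chiK Φ (cl X) = chi Φ X.obj := by
  unfold chiK cl
  rw [QuotientAddGroup.lift_mk, FreeAbelianGroup.lift_apply_of]

end Pool.Agent.H.MP_f85f12_al
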