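import Pool.Agent.H.MP_f85f12_al.B

set_option autoImplicit false
set_option backward.isDefEq.respectTransparency false

namespace Pool.Agent.H.MP_f85f12_al

open CategoryTheory Limits Pretriangulated DerivedCategory DerivedCategory.TStructure Module
open ZeroObject

variable {k : Type} [Field k]

def toOne : ∀ j : WalkingCospan, j ⟶ WalkingCospan.one
  | none => 𝟙 _
  | some j => WidePullbackShape.Hom.term j

def TT (M : Rep3 k) : Prop := IsZero (M.obj .one)

def FF (M : Rep3 k) : Prop := ∀ j, Mono (M.map (toOne j))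

lemma FF.ext {M N : Rep3 k} (hN : FF N) (g : M ⟶ N) (h : g.app .one = 0) : g = 0 := by
  ext1
  funext j
  have := hN j
  rw [← cancel_mono (N.map (toOne j)), ← g.naturality, h]
  simp

def eta (M : Rep3 k) : M ⟶ (Functor.const _).obj (M.obj .one) where
  app j := M.map (toOne j)
  naturality i j f := by
    rw [← M.map_comp, Subsingleton.elim (f ≫ toOne j) (toOne i)]
    simp

lemma tp : TP (TT (k := k)) FF where
  isoT e h := h.of_iso (e.app _).symm
  isoF {M N} e h j := by
    have := h j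
    have h1 : N.map (toOne j) = e.inv.app j ≫ M.map (toOne j) ≫ e.hom.app _ := by simp
    rw [h1]; infer_instance
  hom hM hN f := hN.ext f (hM.eq_of_src _ _)
  ses M := by
    refine ⟨kernel (eta M), Abelian.coimage (eta M), kernel.ι _, Abelian.coimage.π _,
      cokernel.condition _, ?_, ?_, fun j => ?_⟩
    · exact { exact := ShortComplex.exact_of_g_is_cokernel _ (cokernelIsCokernel _) }
    · have h1 : (kernel.ι (eta M)).app .one ≫ (eta M).app .one = 0 := by
        rw [← NatTrans.comp_app, kernel.condition]; rfl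
      have h2 : (eta M).app .one = 𝟙 _ := M.map_id _
      rw [h2, Category.comp_id] at h1
      exact IsZero.of_mono_eq_zero _ h1
    · have h1 := (Abelian.factorThruCoimage (eta M)).naturality (toOne j)
      have : Mono ((Abelian.coimage (eta M)).map (toOne j) ≫
          (Abelian.factorThruCoimage (eta M)).app .one) := by
        rw [h1]
        have : Mono ((Abelian.factorThruCoimage (eta M)).app j) := inferInstance
        exact mono_comp' this (inferInstanceAs (Mono (𝟙 _)))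
      exact mono_of_mono _ ((Abelian.factorThruCoimage (eta M)).app .one)

variable (k) in
noncomputable abbrev Ph (j : WalkingCospan) : Rep3 k ⥤ ModuleCat.{0} k :=
  (evaluation _ _).obj j ⋙ forget₂ (FGModuleCat k) (ModuleCat k)

instance (j : WalkingCospan) (M : Rep3 k) : Module.Finite k ((Ph k j).obj M) :=
  inferInstanceAs (Module.Finite k (M.obj j))

def vx : Fin 3 → WalkingCospan := ![.left, .one, .right]

variable (k) in
/-- The dimension vector. -/
noncomputable def vv : K0 (Db k) →+ (Fin 3 → ℤ) := AddMonoidHom.pi fun i => chiK (Ph k (vx i))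

noncomputable def ZZ : (Fin 3 → ℤ) →+ ℂ where
  toFun x := x 1 * Complex.I
  map_zero' := by simp
  map_add' x y := by simp [add_mul]

lemma vv_cl {X : Db k} {n : ℤ} {M : Rep3 k} (e : X.obj ≅ (singleFunctor (Rep3 k) n).obj M) (i : Fin 3) :
    vv k (cl X) i = (n.negOnePow : ℤ) * dm (Ph k (vx i)) M := by
  rw [← chi_single, ← chi_iso _ e, ← chiK_cl]; rfl

lemma dm_le {M : Rep3 k} (h : FF M) (j : WalkingCospan) :
    dm (Ph k j) M ≤ dm (Ph k .one) M := by
  have := h j
  have h1 : Mono ((forget₂ (FGModuleCat k) (ModuleCat k)).map (M.map (toOne j))) := inferInstance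
  have h3 : Module.Finite k ((forget₂ (FGModuleCat k) (ModuleCat k)).obj (M.obj .one)) :=
    inferInstanceAs (Module.Finite k (M.obj .one))
  have := LinearMap.finrank_le_finrank_of_injective ((ModuleCat.mono_iff_injective _).1 h1)
  exact Int.ofNat_le.2 this

lemma dm_T {M : Rep3 k} (h : TT M) : dm (Ph k .one) M = 0 :=
  dm_zero' _ ((forget₂ (FGModuleCat k) (ModuleCat k)).map_isZero h)

lemma exp_eq (φ : ℝ) (n : ℤ) (h : φ + n = 1 / 2) :
    Complex.exp (Real.pi * φ * Complex.I) = ((n.negOnePow : ℤ) : ℂ) * Complex.I := by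
  have h1 : (φ : ℂ) = 1 / 2 - n := by
    have : φ = 1 / 2 - n := by linarith
    rw [this]; push_cast; ring
  have h2 : (Real.pi * φ * Complex.I : ℂ) =
      Real.pi / 2 * Complex.I + (-n : ℤ) * (Real.pi * Complex.I) := by
    rw [h1]; push_cast; ring
  rw [h2, Complex.exp_add, Complex.exp_int_mul, Complex.exp_pi_mul_I,
    Complex.exp_pi_div_two_mul_I, mul_comm, ← Int.negOnePow_neg, Int.cast_negOnePow]

lemma lax : IsLax (vv k) (PP TT FF) ZZ where
  slicing := slicing tp
  phase φ c hc h0 := by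
    rcases hc with hc | ⟨n, M, ⟨e⟩, ⟨h, hM⟩ | ⟨h, hM⟩⟩
    · exact (h0 ((isZero_iff c).2 hc)).elim
    · refine ⟨dm (Ph k .one) M, by exact_mod_cast dm_nonneg _ _, ?_⟩
      rw [exp_eq φ n h]
      change ((vv k (cl c) 1 : ℤ) : ℂ) * _ = _
      rw [vv_cl e]
      change ((_ * dm (Ph k .one) M : ℤ) : ℂ) * _ = _
      push_cast; ring
    · refine ⟨0, le_rfl, ?_⟩
      change ((vv k (cl c) 1 : ℤ) : ℂ) * _ = _
      rw [vv_cl e]
      change ((_ * dm (Ph k .one) M : ℤ) : ℂ) * _ = _
      simp [dm_T hM]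
  support := by
    refine ⟨1, one_pos, fun φ s hs hm => ?_⟩
    rcases s.property with hc | ⟨n, M, ⟨e⟩, hh⟩
    · exact (hs.1 (IsZero.of_full_of_faithful_of_isZero (ObjectProperty.ι _) _
        ((isZero_iff _).2 hc))).elim
    have h1 : ∀ i, ‖((vv k (cl s.obj) i : ℤ) : ℝ)‖ = dm (Ph k (vx i)) M := fun i => by
      rw [vv_cl e, Real.norm_eq_abs, ← Int.cast_abs, abs_mul, Int.abs_negOnePow, one_mul,
        abs_of_nonneg (dm_nonneg _ _)]
    have h2 : ‖ZZ (vv k (cl s.obj))‖ = dm (Ph k .one) M := by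
      change ‖((vv k (cl s.obj) 1 : ℤ) : ℂ) * Complex.I‖ = _
      rw [norm_mul, Complex.norm_I, mul_one, Complex.norm_intCast, ← Real.norm_eq_abs, h1]; rfl
    rw [h2] at hm ⊢
    rcases hh with ⟨-, hM⟩ | ⟨-, hM⟩
    · rw [div_one, pi_norm_le_iff_of_nonneg hm.le]
      intro i
      rw [h1]; exact_mod_cast dm_le hM _
    · rw [dm_T hM] at hm; simp at hm

variable (k) in
abbrev Sl := (PP (TT (k := k)) FF (1 / 2)).FullSubcategory

noncomputable def ob (M : Rep3 k) (h : FF M) : Sl k :=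
  ⟨⟨_, bd_single 0 M⟩, Or.inr ⟨0, M, ⟨Iso.refl _⟩, Or.inl ⟨by simp, h⟩⟩⟩

noncomputable def mo {M N : Rep3 k} (hM : FF M) (hN : FF N) (f : M ⟶ N) : ob M hM ⟶ ob N hN :=
  ObjectProperty.homMk (ObjectProperty.homMk ((singleFunctor (Rep3 k) 0).map f))

lemma strict_ses {S : ShortComplex (Rep3 k)} (hS : S.ShortExact) (h1 : FF S.X₁) (h2 : FF S.X₂)
    (h3 : FF S.X₃) : Strict (mo h1 h2 S.f) (mo h2 h3 S.g) := by
  obtain ⟨δ, hδ⟩ := lift_tri (X := (ob _ h1).obj) (Y := (ob _ h2).obj) (Z := (ob _ h3).obj) _ _ _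
    hS.singleTriangle_distinguished
  exact strict_of_tri (slicing tp) _ _ δ hδ

lemma sl_cases (a : Sl k) : IsZero a ∨ ∃ (M : Rep3 k) (h : FF M), Nonempty (a ≅ ob M h) := by
  rcases a.property with hc | ⟨n, M, ⟨e⟩, ⟨h, hM⟩ | ⟨h, hM⟩⟩
  · exact Or.inl (IsZero.of_full_of_faithful_of_isZero (ObjectProperty.ι _) _
      ((isZero_iff _).2 hc))
  · obtain rfl : n = 0 := by exact_mod_cast (by linarith : (n : ℝ) = 0)
    exact Or.inr ⟨M, hM, ⟨ObjectProperty.isoMk _ (ObjectProperty.isoMk _ e)⟩⟩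
  · exact (int_half n 0 (by push_cast; linarith)).elim

lemma mo_surj {M N : Rep3 k} (hM : FF M) (hN : FF N) (g : ob M hM ⟶ ob N hN) :
    ∃ f, mo hM hN f = g := by
  obtain ⟨f, hf⟩ := (singleFunctor (Rep3 k) 0).map_surjective (X := M) (Y := N) g.hom.hom
  exact ⟨f, ObjectProperty.hom_ext _ (ObjectProperty.hom_ext _ hf)⟩

lemma mo_zero {M N : Rep3 k} (hM : FF M) (hN : FF N) : mo hM hN 0 = 0 :=
  ObjectProperty.hom_ext _ (ObjectProperty.hom_ext _ ((singleFunctor (Rep3 k) 0).map_zero M N))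

lemma simple_ob {M : Rep3 k} (hM : FF M) (h0 : ¬ IsZero (M.obj .one))
    (h1 : ∀ (V W : FGModuleCat k) (f : V ⟶ M.obj .one) (g : M.obj .one ⟶ W),
      f ≫ g = 0 → f = 0 ∨ g = 0) : SimpleObj (ob M hM) := by
  refine ⟨fun h => h0 ?_, fun a c i p ⟨w, ⟨hi⟩, ⟨hp⟩⟩ => ?_⟩
  · have h2 : IsZero ((singleFunctor (Rep3 k) 0).obj M) :=
      (isZero_iff _).1 ((ObjectProperty.ι _).map_isZero h)
    exact ((evaluation _ _).obj _).map_isZero
      (IsZero.of_full_of_faithful_of_isZero (singleFunctor (Rep3 k) 0) _ h2)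
  rcases sl_cases a with ha | ⟨L, hL, ⟨ea⟩⟩
  · exact Or.inl ha
  rcases sl_cases c with hc | ⟨N, hN, ⟨ec⟩⟩
  · exact Or.inr hc
  obtain ⟨f, hf⟩ := mo_surj hL hM (ea.inv ≫ i)
  obtain ⟨g, hg⟩ := mo_surj hM hN (p ≫ ec.hom)
  have hfg : f ≫ g = 0 := by
    have h2 : mo hL hM f ≫ mo hM hN g = 0 := by
      rw [hf, hg, Category.assoc, reassoc_of% w, zero_comp, comp_zero]
    apply (singleFunctor (Rep3 k) 0).map_injective
    rw [Functor.map_zero, Functor.map_comp]
    exact congrArg (·.hom.hom) h2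
  have : Mono i := mono_of_isLimit_fork hi
  have : Epi p := epi_of_isColimit_cofork hp
  rcases h1 _ _ (f.app .one) (g.app .one) (by rw [← NatTrans.comp_app, hfg]; rfl) with h | h
  · rw [hM.ext f h, mo_zero] at hf
    exact Or.inl ((IsZero.of_mono_eq_zero _ hf.symm).of_iso ea)
  · rw [hN.ext g h, mo_zero] at hg
    exact Or.inr ((IsZero.of_epi_eq_zero _ hg.symm).of_iso ec)

variable (k) in
noncomputable abbrev KK : FGModuleCat.{0} k := FGModuleCat.of k k

lemma KK_ne : ¬ IsZero (KK k) := fun h => by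
  have := ModuleCat.isZero_iff_subsingleton.1 ((forget₂ _ (ModuleCat k)).map_isZero h)
  exact one_ne_zero (α := k) (this.elim _ _)

lemma KK_simple (V W : FGModuleCat k) (f : V ⟶ KK k) (g : KK k ⟶ W) (h : f ≫ g = 0) :
    f = 0 ∨ g = 0 := by
  by_cases hg : g.hom.hom (1 : k) = 0
  · right
    ext1
    exact LinearMap.ext_ring (f := g.hom.hom) (g := 0) hg
  · left
    ext1
    ext x
    have h1 : g.hom.hom (f.hom.hom x) = 0 := congrArg (fun u => u.hom.hom x) h
    have h2 : g.hom.hom (f.hom.hom x) = (show k from f.hom.hom x) • g.hom.hom (1 : k) := by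
      rw [← map_smul]; congr 1; exact (mul_one _).symm
    rw [h2] at h1
    exact (smul_eq_zero.1 h1).resolve_right hg

lemma FF_cospan {X Y Z : FGModuleCat k} (f : X ⟶ Z) (g : Y ⟶ Z) [Mono f] [Mono g] :
    FF (cospan f g) := by
  rintro (_ | _ | _)
  · exact inferInstanceAs (Mono (𝟙 Z))
  · assumption
  · assumption

lemma ses_of {S : ShortComplex (Rep3 k)}
    (h : ∀ j, (S.map ((evaluation _ _).obj j)).ShortExact) : S.ShortExact := by
  have hP : JointlyReflectIsomorphisms
      (fun j : WalkingCospan => (evaluation _ (FGModuleCat.{0} k)).obj j) :=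
    ⟨fun f hf => @NatIso.isIso_of_isIso_app _ _ _ _ _ _ f hf⟩
  exact (hP.shortExact_iff S).2 h

end Pool.Agent.H.MP_f85f12_al
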