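import Pool.Agent.H.MP_f85f12_al.C

set_option autoImplicit false
set_option backward.isDefEq.respectTransparency false

namespace Pool.Agent.H.MP_f85f12_al

open CategoryTheory Limits Pretriangulated DerivedCategory DerivedCategory.TStructure Module
open ZeroObject

variable {k : Type} [Field k]

variable (k)
noncomputable abbrev z : (0 : FGModuleCat.{0} k) ⟶ KK k := 0
noncomputable abbrev S2 : Rep3 k := cospan (z k) (z k)
noncomputable abbrev P1 : Rep3 k := cospan (𝟙 (KK k)) (z k)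
noncomputable abbrev P3 : Rep3 k := cospan (z k) (𝟙 (KK k))
noncomputable abbrev I2 : Rep3 k := cospan (𝟙 (KK k)) (𝟙 (KK k))
noncomputable abbrev W : Rep3 k := cospan (biprod.inl : KK k ⟶ KK k ⊞ KK k) biprod.inr

instance : Mono (z k) := (isZero_zero _).mono _

noncomputable def s1 : ShortComplex (Rep3 k) :=
  ShortComplex.mk (X₁ := P1 k) (X₂ := W k) (X₃ := P3 k)
    (cospanHomMk biprod.inl (𝟙 (KK k)) 0 (by simp) ((isZero_zero _).eq_of_src _ _))
    (cospanHomMk biprod.snd 0 (𝟙 (KK k)) (by simp) (by simp))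
    ((FF_cospan _ _).ext _ biprod.inl_snd)

noncomputable def s2 : ShortComplex (Rep3 k) :=
  ShortComplex.mk (X₁ := S2 k) (X₂ := W k) (X₃ := I2 k)
    (cospanHomMk (biprod.lift (𝟙 (KK k)) (-𝟙 _)) 0 0 ((isZero_zero _).eq_of_src _ _)
      ((isZero_zero _).eq_of_src _ _))
    (cospanHomMk (biprod.desc (𝟙 (KK k)) (𝟙 _)) (𝟙 (KK k)) (𝟙 (KK k)) (by simp) (by simp))
    ((FF_cospan _ _).ext _ (by
      change biprod.lift (𝟙 (KK k)) (-𝟙 _) ≫ biprod.desc (𝟙 (KK k)) (𝟙 _) = 0
      simp))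

lemma seL : (ShortComplex.mk (𝟙 (KK k)) (0 : KK k ⟶ 0) (by simp)).ShortExact :=
  ShortComplex.Splitting.shortExact
    { r := 𝟙 _, s := 0, s_g := (isZero_zero _).eq_of_src _ _ }

lemma seR : (ShortComplex.mk (0 : 0 ⟶ KK k) (𝟙 (KK k)) (by simp)).ShortExact :=
  ShortComplex.Splitting.shortExact
    { r := 0, s := 𝟙 _, f_r := (isZero_zero _).eq_of_src _ _ }

lemma se1 : (s1 k).ShortExact := ses_of (by
  rintro (_ | _ | _)
  · exact (ShortComplex.Splitting.ofHasBinaryBiproduct (KK k) (KK k)).shortExact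
  · exact seL k
  · exact seR k)

lemma se2 : (s2 k).ShortExact := ses_of (by
  rintro (_ | _ | _)
  · refine ShortComplex.Splitting.shortExact (S := ShortComplex.mk
      (biprod.lift (𝟙 (KK k)) (-𝟙 _)) (biprod.desc (𝟙 (KK k)) (𝟙 _)) (by simp))
      { r := biprod.fst, s := biprod.inr, id := ?_ }
    apply biprod.hom_ext <;> apply biprod.hom_ext' <;> simp [Preadditive.add_comp]
  · exact seR k
  · exact seR k)

variable {k}

lemma simple_c {X Y : FGModuleCat k} (f : X ⟶ KK k) (g : Y ⟶ KK k) [Mono f] [Mono g] :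
    SimpleObj (ob (cospan f g) (FF_cospan f g)) :=
  simple_ob _ KK_ne KK_simple

lemma strict_id {B : Type*} [Category B] [HasZeroMorphisms B] {a : B} (ha : IsZero a) (s : B) :
    Strict (0 : a ⟶ s) (𝟙 s) :=
  ⟨zero_comp, ⟨KernelFork.IsLimit.ofMonoOfIsZero _ inferInstance ha⟩,
    ⟨CokernelCofork.IsColimit.ofπ' _ _ fun f _ => ⟨f, Category.id_comp _⟩⟩⟩

lemma iso_ob {M N : Rep3 k} {hM : FF M} {hN : FF N} (e : ob M hM ≅ ob N hN) (j : WalkingCospan) :
    Nonempty (M.obj j ≅ N.obj j) :=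
  ⟨((singleFunctor (Rep3 k) 0).preimageIso (X := M) (Y := N)
    (Bounded.ι.mapIso ((ObjectProperty.ι _).mapIso e))).app j⟩

lemma not_JH : ¬ JH (Sl k) := by
  intro h
  let a : Sl k := ⟨0, (slicing tp).zero _ _ (isZero_zero _)⟩
  have ha : IsZero a := IsZero.of_full_of_faithful_of_isZero (ObjectProperty.ι _) _ (isZero_zero _)
  have hW : FF (W k) := FF_cospan _ _
  have h1 := Series.cons _ _ (Series.cons _ _ (Series.nil a ha) (strict_id ha _)
    (simple_c (𝟙 (KK k)) (z k))) (strict_ses (se1 k) (FF_cospan _ _) hW (FF_cospan _ _))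
    (simple_c (z k) (𝟙 (KK k)))
  have h2 := Series.cons _ _ (Series.cons _ _ (Series.nil a ha) (strict_id ha _)
    (simple_c (z k) (z k))) (strict_ses (se2 k) (FF_cospan _ _) hW (FF_cospan _ _))
    (simple_c (𝟙 (KK k)) (𝟙 (KK k)))
  obtain ⟨m, hm, hf⟩ := h _ _ _ h1 h2
  cases hf with
  | cons hx _ =>
    obtain ⟨e⟩ := hx
    have := hm.subset List.mem_cons_self
    simp only [List.mem_cons, List.not_mem_nil, or_false] at this
    rcases this with rfl | rfl
    · obtain ⟨e'⟩ := iso_ob e .left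
      exact KK_ne ((isZero_zero _).of_iso e'.symm)
    · obtain ⟨e'⟩ := iso_ob e .right
      exact KK_ne ((isZero_zero _).of_iso e')

lemma massive (c : Db k) (hc : PP TT FF (1 / 2) c) (h0 : ¬ IsZero c) :
    0 < ‖ZZ (vv k (cl c))‖ := by
  rcases sl_cases ⟨c, hc⟩ with h | ⟨M, hM, ⟨e⟩⟩
  · exact (h0 ((ObjectProperty.ι _).map_isZero h)).elim
  have e' : c.obj ≅ (singleFunctor (Rep3 k) 0).obj M :=
    Bounded.ι.mapIso ((ObjectProperty.ι _).mapIso e)
  rw [norm_pos_iff]
  intro h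
  change ((vv k (cl c) 1 : ℤ) : ℂ) * Complex.I = 0 at h
  rw [vv_cl e', mul_eq_zero, Int.cast_eq_zero, Int.negOnePow_zero, Units.val_one, one_mul] at h
  have h1 : finrank k ((Ph k .one).obj M) = 0 :=
    Int.natCast_eq_zero.1 (h.resolve_right Complex.I_ne_zero)
  have h2 : IsZero (M.obj .one) := IsZero.of_full_of_faithful_of_isZero
    (forget₂ _ (ModuleCat k)) _ (ModuleCat.isZero_iff_subsingleton.2
      ((finrank_zero_iff (M := (Ph k .one).obj M)).1 h1))
  have h3 : IsZero M := (IsZero.iff_id_eq_zero _).2 (hM.ext _ (h2.eq_of_src _ _))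
  exact h0 ((isZero_iff _).2 (((singleFunctor (Rep3 k) 0).map_isZero h3).of_iso e'))

lemma vv_val (M : Rep3 k) (hM : FF M) (i : Fin 3) :
    vv k (cl (ob M hM).obj) i = dm (Ph k (vx i)) M := by
  rw [vv_cl (Iso.refl _)]; simp

lemma vv_surj : Function.Surjective (vv k) := by
  have d0 : ∀ (M : Rep3 k) j, IsZero (M.obj j) → dm (Ph k j) M = 0 := fun M j h =>
    dm_zero' _ ((forget₂ (FGModuleCat k) (ModuleCat k)).map_isZero h)
  have d1 : ((finrank k k : ℕ) : ℤ) = 1 := by simp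
  have z0 := isZero_zero (FGModuleCat.{0} k)
  have h1 : vv k (cl (ob (P1 k) (FF_cospan _ _)).obj) = ![1, 1, 0] := by
    funext i; rw [vv_val]; fin_cases i
    exacts [d1, d1, d0 _ _ z0]
  have h2 : vv k (cl (ob (S2 k) (FF_cospan _ _)).obj) = ![0, 1, 0] := by
    funext i; rw [vv_val]; fin_cases i
    exacts [d0 _ _ z0, d1, d0 _ _ z0]
  have h3 : vv k (cl (ob (P3 k) (FF_cospan _ _)).obj) = ![0, 1, 1] := by
    funext i; rw [vv_val]; fin_cases i
    exacts [d0 _ _ z0, d1, d1]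
  intro x
  refine ⟨x 0 • cl (ob (P1 k) (FF_cospan _ _)).obj +
    (x 1 - x 0 - x 2) • cl (ob (S2 k) (FF_cospan _ _)).obj +
    x 2 • cl (ob (P3 k) (FF_cospan _ _)).obj, ?_⟩
  rw [map_add, map_add, map_zsmul, map_zsmul, map_zsmul, h1, h2, h3]
  funext i
  fin_cases i
  · simp
  · simp; ring
  · simp

end Pool.Agent.H.MP_f85f12_al
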