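import Mathlib

set_option autoImplicit false

namespace Pool.Agent.H.MP_f85f12_al

open CategoryTheory Limits Pretriangulated

universe v u

section Slice

variable {B : Type u} [Category.{v} B] [HasZeroMorphisms B]

/-- `a ⟶ b ⟶ c` is a strict short exact sequence: `i` is a kernel of `p` and `p` is a cokernel
of `i`. So `a` is a strict subobject of `b` with quotient `c`. -/
def Strict {a b c : B} (i : a ⟶ b) (p : b ⟶ c) : Prop :=
  ∃ w : i ≫ p = 0, Nonempty (IsLimit (KernelFork.ofι i w)) ∧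
    Nonempty (IsColimit (CokernelCofork.ofπ p w))

/-- A simple object: nonzero, and its only strict subobjects are `0` and itself. -/
def SimpleObj (s : B) : Prop :=
  ¬ IsZero s ∧ ∀ (a c : B) (i : a ⟶ s) (p : s ⟶ c), Strict i p → IsZero a ∨ IsZero c

/-- `Series c l`: the object `c` has a composition series whose factors, from the top one
down, form the list `l`. -/
inductive Series : B → List B → Prop
  | nil (c : B) : IsZero c → Series c []
  | cons {a c s : B} {l : List B} (i : a ⟶ c) (p : c ⟶ s) :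
      Series a l → Strict i p → SimpleObj s → Series c (s :: l)

variable (B) in
/-- The Jordan–Hölder property. -/
def JH : Prop := ∀ (c : B) (l l' : List B), Series c l → Series c l' →
  ∃ m : List B, m.Perm l' ∧ List.Forall₂ (fun x y => Nonempty (x ≅ y)) l m

end Slice

variable {C : Type u} [Category.{v} C] [Preadditive C] [HasZeroObject C] [HasShift C ℤ]
  [∀ n : ℤ, (shiftFunctor C n).Additive] [Pretriangulated C]

/-- `HN P a X`: `X` has a Harder–Narasimhan filtration all of whose phases are `> a`; the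
last factor has the smallest phase. -/
inductive HN (P : ℝ → ObjectProperty C) : ℝ → C → Prop
  | zero (a : ℝ) (X : C) : IsZero X → HN P a X
  | step (a φ : ℝ) (T : Triangle C) : T ∈ (distTriang C) → a < φ → P φ T.obj₃ →
      HN P φ T.obj₁ → HN P a T.obj₂

/-- A slicing in Bridgeland's sense. -/
structure IsSlicing (P : ℝ → ObjectProperty C) : Prop where
  iso : ∀ (φ : ℝ) (X Y : C), Nonempty (X ≅ Y) → P φ X → P φ Y
  zero : ∀ (φ : ℝ) (X : C), IsZero X → P φ X
  sum : ∀ (φ : ℝ) (X Y : C), P φ X → P φ Y → P φ (X ⊞ Y)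
  shift : ∀ (φ : ℝ) (X : C), P φ X ↔ P (φ + 1) (X⟦(1 : ℤ)⟧)
  hom : ∀ (φ ψ : ℝ) (X Y : C), ψ < φ → P φ X → P ψ Y → ∀ f : X ⟶ Y, f = 0
  hn : ∀ X : C, ∃ a : ℝ, HN P a X

variable (C) in
/-- The relations `[Y] = [X] + [Z]` for the exact triangles `X ⟶ Y ⟶ Z ⟶ X[1]`. -/
def rel : AddSubgroup (FreeAbelianGroup C) := AddSubgroup.closure
  {x | ∃ T ∈ distTriang C, x = FreeAbelianGroup.of T.obj₂ - FreeAbelianGroup.of T.obj₁ -
    FreeAbelianGroup.of T.obj₃}

variable (C) in
/-- The Grothendieck group `K(C)`. -/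
abbrev K0 : Type u := FreeAbelianGroup C ⧸ rel C

/-- The class of an object in `K(C)`. -/
def cl (X : C) : K0 C := QuotientAddGroup.mk (FreeAbelianGroup.of X)

/-- A lax stability condition `(P, Z)` for `v : K(C) → Λ = ℤ ^ n`, with the sup norm on
`Λ ⊗ ℝ = ℝ ^ n`. The mass of a nonzero semistable object `c` is `‖Z (v c)‖`. -/
structure IsLax {n : ℕ} (v : K0 C →+ (Fin n → ℤ)) (P : ℝ → ObjectProperty C)
    (Z : (Fin n → ℤ) →+ ℂ) : Prop where
  slicing : IsSlicing P
  phase : ∀ (φ : ℝ) (c : C), P φ c → ¬ IsZero c →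
    ∃ m : ℝ, 0 ≤ m ∧ Z (v (cl c)) = m * Complex.exp (Real.pi * φ * Complex.I)
  support : ∃ K : ℝ, 0 < K ∧ ∀ (φ : ℝ) (s : (P φ).FullSubcategory), SimpleObj s →
    0 < ‖Z (v (cl s.obj))‖ → ‖fun i => (v (cl s.obj) i : ℝ)‖ / K ≤ ‖Z (v (cl s.obj))‖

/-- Finite-dimensional representations over `k` of the `A₃` quiver `• → • ← •`. -/
abbrev Rep3 (k : Type) [Field k] : Type 1 := WalkingCospan ⥤ FGModuleCat.{0} k

noncomputable instance (k : Type) [Field k] : HasDerivedCategory (Rep3 k) :=
  HasDerivedCategory.standard _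

/-- Their bounded derived category. -/
abbrev Db (k : Type) [Field k] : Type 1 := DerivedCategory.Bounded (Rep3 k)

end Pool.Agent.H.MP_f85f12_al
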